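import Pool.Agent.helper74.FD.SpecG

/-!
# Row `fd:FDD` (MP_07c750): the set of the directions whose geodesic is not dense
-/

set_option autoImplicit false

open scoped MatrixGroups ContDiff Topology UpperHalfPlane ComplexConjugate
open UpperHalfPlane MeasureTheory Filter Set

namespace Pool.Agent.FD

open Pool.Agent.RS Pool.Agent.MS
open Pool.Agent.EN (XG MG mkX mkM fl pr)

/-- the points whose orbit avoids `U` -/
def FDD_K (Γ : Subgroup SL(2, ℝ)) (U : Set (XG Γ)) : Set (XG Γ) := {x | ∀ t : ℝ, fl Γ t x ∉ U}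

/-- nonempty open symmetric sets -/
def FDD_G (Γ : Subgroup SL(2, ℝ)) (U : Set (XG Γ)) : Prop :=
  IsOpen U ∧ U.Nonempty ∧ ∀ g, mkX Γ (-g) ∈ U ↔ mkX Γ g ∈ U

/-- the symmetric set generated by `V` -/
def FDD_S (Γ : Subgroup SL(2, ℝ)) (V : Set (XG Γ)) : Set (XG Γ) :=
  mkX Γ '' {g | mkX Γ g ∈ V ∨ mkX Γ (-g) ∈ V}

theorem FDD_fl {X : Type} [TopologicalSpace X] {f : ℝ → X → X} (h : EN.FlowOn f) (t : ℝ) :
    Continuous (f t) :=
  h.cont.comp (continuous_const.prodMk continuous_id)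

theorem FDD_negcont : Continuous fun g : SL(2, ℝ) => -g := by
  have e : (fun g : SL(2, ℝ) => -g) = fun g => (-1 : SL(2, ℝ)) * g := by
    funext g
    rw [neg_one_mul]
  rw [e]
  exact continuous_const.mul continuous_id

theorem FDD_mem {Γ : Subgroup SL(2, ℝ)}
    (hmk : ∀ g g', mkX Γ g = mkX Γ g' ↔ ∃ γ : Γ, (γ : SL(2, ℝ)) * g = g') (V : Set (XG Γ)) (g : SL(2, ℝ)) :
    mkX Γ g ∈ FDD_S Γ V ↔ mkX Γ g ∈ V ∨ mkX Γ (-g) ∈ V := by
  constructor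
  · rintro ⟨g', h1, h2⟩
    have h3 : mkX Γ (-g') = mkX Γ (-g) := by
      obtain ⟨γ, hγ⟩ := (hmk _ _).1 h2
      exact (hmk _ _).2 ⟨γ, by rw [mul_neg, hγ]⟩
    rcases h1 with h1 | h1
    · left; rw [← h2]; exact h1
    · right; rw [← h3]; exact h1
  · intro h
    exact ⟨g, h, rfl⟩

theorem FDD_good {Γ : Subgroup SL(2, ℝ)} (hc : Continuous (mkX Γ)) (ho : IsOpenMap (mkX Γ))
    (hs : Function.Surjective (mkX Γ))
    (hmk : ∀ g g', mkX Γ g = mkX Γ g' ↔ ∃ γ : Γ, (γ : SL(2, ℝ)) * g = g') {V : Set (XG Γ)} (hV : IsOpen V)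
    (hne : V.Nonempty) : FDD_G Γ (FDD_S Γ V) := by
  refine ⟨?_, ?_, ?_⟩
  · refine ho _ ?_
    exact (hV.preimage hc).union (hV.preimage (hc.comp FDD_negcont))
  · obtain ⟨x, hx⟩ := hne
    obtain ⟨g, rfl⟩ := hs x
    exact ⟨mkX Γ g, g, Or.inl hx, rfl⟩
  · intro g
    rw [FDD_mem hmk, FDD_mem hmk, neg_neg, or_comm]

theorem FDD_iv {Γ : Subgroup SL(2, ℝ)}
    (hmk : ∀ g g', mkX Γ g = mkX Γ g' ↔ ∃ γ : Γ, (γ : SL(2, ℝ)) * g = g') {A : Set (XG Γ)} (hA : FDD_G Γ A) :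
    Iv Γ {g | mkX Γ g ∈ A} := by
  constructor
  · intro γ g
    have e : mkX Γ g = mkX Γ ((γ : SL(2, ℝ)) * g) := (hmk _ _).2 ⟨γ, rfl⟩
    show mkX Γ ((γ : SL(2, ℝ)) * g) ∈ A ↔ mkX Γ g ∈ A
    rw [e]
  · intro g
    exact hA.2.2 g

theorem FDD_step {Γ : Subgroup SL(2, ℝ)} (hTRS : TRS_stmt) (hΓ : QU.SurfaceGroup Γ) (hfl : EN.FlowOn (fl Γ))
    (hc : Continuous (mkX Γ)) (hs : Function.Surjective (mkX Γ)) (hft : ∀ t g, fl Γ t (mkX Γ g) = mkX Γ (g * RS.aM t))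
    (hmk : ∀ g g', mkX Γ g = mkX Γ g' ↔ ∃ γ : Γ, (γ : SL(2, ℝ)) * g = g') {U U' : Set (XG Γ)}
    (hU : FDD_G Γ U) (hU' : FDD_G Γ U') : ∃ W, FDD_G Γ W ∧ FDD_K Γ U ⊆ FDD_K Γ W ∧ FDD_K Γ U' ⊆ FDD_K Γ W := by
  have hN : ∀ A : Set (XG Γ), FDD_G Γ A → ({g | mkX Γ g ∈ A} : Set SL(2, ℝ)).Nonempty := by
    intro A hA
    obtain ⟨x, hx⟩ := hA.2.1
    obtain ⟨g, rfl⟩ := hs x
    exact ⟨g, hx⟩
  have hO : ∀ A : Set (XG Γ), FDD_G Γ A → IsOpen ({g | mkX Γ g ∈ A} : Set SL(2, ℝ)) :=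
    fun A hA => hA.1.preimage hc
  obtain ⟨h, t, h1, h2⟩ := hTRS Γ {g | mkX Γ g ∈ U} {g | mkX Γ g ∈ U'} hΓ (hO U hU) (hN U hU) (FDD_iv hmk hU)
    (hO U' hU') (hN U' hU') (FDD_iv hmk hU')
  have h1' : mkX Γ h ∈ U := h1
  have h2' : mkX Γ (h * aM t) ∈ U' := h2
  have hft' : Continuous (fl Γ t) := FDD_fl hfl t
  have hsym : ∀ g, mkX Γ (-g) ∈ U ∩ {x | fl Γ t x ∈ U'} ↔ mkX Γ g ∈ U ∩ {x | fl Γ t x ∈ U'} := by
    intro g
    have e1 : fl Γ t (mkX Γ (-g)) = mkX Γ (-(g * aM t)) := by rw [hft, neg_mul]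
    have e2 : fl Γ t (mkX Γ g) = mkX Γ (g * aM t) := hft t g
    have e3 := hU.2.2 g
    have e4 := hU'.2.2 (g * aM t)
    constructor
    · rintro ⟨a1, a2⟩
      refine ⟨e3.1 a1, ?_⟩
      show fl Γ t (mkX Γ g) ∈ U'
      rw [e2]
      refine e4.1 ?_
      rw [← e1]
      exact a2
    · rintro ⟨a1, a2⟩
      refine ⟨e3.2 a1, ?_⟩
      show fl Γ t (mkX Γ (-g)) ∈ U'
      rw [e1]
      refine e4.2 ?_
      rw [← e2]
      exact a2
  have hne : mkX Γ h ∈ U ∩ {x | fl Γ t x ∈ U'} := by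
    refine ⟨h1', ?_⟩
    show fl Γ t (mkX Γ h) ∈ U'
    rw [hft]
    exact h2'
  refine ⟨U ∩ {x | fl Γ t x ∈ U'}, ⟨hU.1.inter (hU'.1.preimage hft'), ⟨mkX Γ h, hne⟩, hsym⟩, ?_, ?_⟩
  · intro x hx s hs'
    exact hx s hs'.1
  · intro x hx s hs'
    refine hx (t + s) ?_
    rw [hfl.add]
    exact hs'.2

theorem FDD_proof (hTRS : TRS_stmt) (hXFL : EN.XFL_stmt) (hXTX : EN.XTX_stmt) : FDD_stmt := by
  intro Γ μ hΓ hμ hK
  obtain ⟨hfl, -, hc, ho, hs, -, -, -, hft, -, hmk, -⟩ := hXFL Γ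
  obtain ⟨-, -, hsc⟩ := hXTX Γ hΓ
  have hB := TopologicalSpace.isBasis_countableBasis (XG Γ)
  -- enumeration of the basis
  have hBne : (TopologicalSpace.countableBasis (XG Γ)).Nonempty := by
    obtain ⟨V, hV, -⟩ := hB.exists_subset_of_mem_open (mem_univ (mkX Γ 1)) isOpen_univ
    exact ⟨V, hV⟩
  obtain ⟨V, hV⟩ := (TopologicalSpace.countable_countableBasis (XG Γ)).exists_eq_range hBne
  have hVB : ∀ n, V n ∈ TopologicalSpace.countableBasis (XG Γ) := fun n => by rw [hV]; exact mem_range_self n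
  have hVo : ∀ n, IsOpen (V n) := fun n => TopologicalSpace.isOpen_of_mem_countableBasis (hVB n)
  have hVn : ∀ n, (V n).Nonempty := fun n => TopologicalSpace.nonempty_of_mem_countableBasis (hVB n)
  have hG : ∀ n, FDD_G Γ (FDD_S Γ (V n)) := fun n => FDD_good hc ho hs hmk (hVo n) (hVn n)
  -- the set as a countable union of closed sets
  have hND : ND Γ = ⋃ n, FDD_K Γ (FDD_S Γ (V n)) := by
    ext x
    obtain ⟨g0, rfl⟩ := hs x
    rw [mem_iUnion]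
    constructor
    · rintro ⟨g, hg, hd⟩
      rw [hg]
      rw [hB.dense_iff] at hd
      push Not at hd
      obtain ⟨o, ho1, ho2, ho3⟩ := hd
      rw [hV] at ho1
      obtain ⟨n, rfl⟩ := ho1
      refine ⟨n, fun t ht => ?_⟩
      rw [hft, FDD_mem hmk] at ht
      have h0 : ∀ y, y ∈ V n → y ∈ {y : XG Γ | ∃ t : ℝ, y = mkX Γ (g * aM t) ∨ y = mkX Γ (-(g * aM t))} → False := by
        intro y h1 h2
        have : y ∈ V n ∩ {y : XG Γ | ∃ t : ℝ, y = mkX Γ (g * aM t) ∨ y = mkX Γ (-(g * aM t))} := ⟨h1, h2⟩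
        rw [ho3] at this
        exact this
      rcases ht with ht | ht
      · exact h0 _ ht ⟨t, Or.inl rfl⟩
      · exact h0 _ ht ⟨t, Or.inr rfl⟩
    · rintro ⟨n, hn⟩
      refine ⟨g0, rfl, fun hd => ?_⟩
      obtain ⟨y, hy1, t, hy2⟩ := hd.inter_open_nonempty (V n) (hVo n) (hVn n)
      refine hn t ?_
      rw [hft, FDD_mem hmk]
      rcases hy2 with hy2 | hy2
      · left; rw [← hy2]; exact hy1
      · right; rw [← hy2]; exact hy1
  have hKc : ∀ n, IsClosed (FDD_K Γ (FDD_S Γ (V n))) := by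
    intro n
    have e : FDD_K Γ (FDD_S Γ (V n)) = ⋂ t : ℝ, fl Γ t ⁻¹' (FDD_S Γ (V n))ᶜ := by
      ext x
      simp only [FDD_K, mem_ofPred_eq, mem_iInter, mem_preimage, mem_compl_iff]
    rw [e]
    refine isClosed_iInter fun t => ?_
    exact (hG n).1.isClosed_compl.preimage (FDD_fl hfl t)
  refine ⟨?_, ?_⟩
  · rw [hND]
    exact MeasurableSet.iUnion fun n => (hKc n).measurableSet
  · -- finitely many of these sets
    have hfin : ∀ n : ℕ, ∃ U, FDD_G Γ U ∧ ∀ i ≤ n, FDD_K Γ (FDD_S Γ (V i)) ⊆ FDD_K Γ U := by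
      intro n
      induction n with
      | zero =>
        refine ⟨FDD_S Γ (V 0), hG 0, fun i hi => ?_⟩
        rw [Nat.le_zero.1 hi]
      | succ n ih =>
        obtain ⟨U, hU, h1⟩ := ih
        obtain ⟨W, hW, h2, h3⟩ := FDD_step hTRS hΓ hfl hc hs hft hmk hU (hG (n + 1))
        refine ⟨W, hW, fun i hi => ?_⟩
        rcases Nat.lt_or_ge i (n + 1) with h | h
        · exact (h1 i (by omega)).trans h2
        · have : i = n + 1 := by omega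
          rw [this]
          exact h3
    rw [hND, measure_iUnion_eq_iSup_accumulate]
    refine iSup_le fun n => ?_
    obtain ⟨U, hU, h1⟩ := hfin n
    refine (measure_mono ?_).trans (hK U hU.1 hU.2.1 hU.2.2)
    rw [Set.accumulate_def]
    exact iUnion₂_subset h1

end Pool.Agent.FD
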